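import Pool.Graph.R_pool_sql_team_seeded_620a6dc7.H207.WH.Red
import Pool.Graph.R_pool_sql_team_seeded_620a6dc7.H207.WH.Unc

/-!
# Weyl-Heisenberg overlap functions of a finite abelian group: self-duality and line sums
-/

set_option autoImplicit false

namespace Pool.Agent.H138.SIC

open Finset

variable {A : Type*} [AddCommGroup A] [Fintype A]

/-- the overlap function of a pair of functions on a finite abelian group -/
noncomputable def ov (w u : A → ℂ) (g : A × AddChar A ℂ) : ℂ :=
  ∑ x, w x * u (x + g.1) * g.2 x

/-- the twisted products of an overlap function -/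
noncomputable def FF (f : A × AddChar A ℂ → ℂ) (c g : A × AddChar A ℂ) : ℂ :=
  (g.2 - c.2) g.1 * f g * f (c - g)

/-- self-duality of the twisted products -/
def SD (f : A × AddChar A ℂ → ℂ) : Prop :=
  ∀ c g, (Fintype.card A : ℂ) * FF f c g = ∑ h, g.2 h.1 * h.2 (-g.1) * FF f c h

theorem sd_smul {f : A × AddChar A ℂ → ℂ} (hf : SD f) (N : ℂ) : SD (fun g => f g * N) := by
  intro c g
  have h1 : ∀ g, FF (fun g => f g * N) c g = FF f c g * N ^ 2 := by
    intro g
    simp only [FF]
    ring
  simp only [h1]
  rw [← mul_assoc, hf, Finset.sum_mul]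
  apply Finset.sum_congr rfl
  intro h _
  ring

theorem ov_SD (w u : A → ℂ) : SD (ov w u) := by
  classical
  intro c g
  obtain ⟨c, η⟩ := c
  obtain ⟨a, ξ⟩ := g
  rw [Fintype.sum_prod_type]
  -- inner sums
  have h3 : ∀ c' : A, ∑ η' : AddChar A ℂ, ξ c' * η' (-a) * FF (ov w u) (c, η) (c', η')
      = (Fintype.card A : ℂ) * ∑ x, ξ c' * η (x - a) *
        (w x * u (x + c') * w (x + c' - a) * u (x + c - a)) := by
    intro c'
    calc ∑ η' : AddChar A ℂ, ξ c' * η' (-a) * FF (ov w u) (c, η) (c', η')
        = ∑ η' : AddChar A ℂ, ∑ x, ∑ y, (ξ c' * η (y - c') *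
          (w x * u (x + c') * w y * u (y + (c - c')))) * η' (x - y + c' - a) := by
          apply Finset.sum_congr rfl
          intro η' _
          simp only [FF, ov, Prod.mk_sub_mk]
          rw [mul_assoc ((η' - η) c'), Finset.sum_mul_sum, Finset.mul_sum,
            Finset.mul_sum]
          apply Finset.sum_congr rfl
          intro x _
          rw [Finset.mul_sum, Finset.mul_sum]
          apply Finset.sum_congr rfl
          intro y _
          have e1 : η' (x - y + c' - a) = η' (-a) * η' c' * η' x * η' (-y) := by
            rw [← AddChar.map_add_eq_mul, ← AddChar.map_add_eq_mul, ← AddChar.map_add_eq_mul]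
            congr 1; abel
          have e2 : η (y - c') = η y * η (-c') := by
            rw [← AddChar.map_add_eq_mul]; congr 1; abel
          rw [e1, e2, AddChar.sub_apply, AddChar.sub_apply]
          ring
      _ = ∑ x, ∑ y, (ξ c' * η (y - c') *
          (w x * u (x + c') * w y * u (y + (c - c')))) * ∑ η' : AddChar A ℂ, η' (x - y + c' - a) := by
          rw [Finset.sum_comm]
          apply Finset.sum_congr rfl
          intro x _
          rw [Finset.sum_comm]
          apply Finset.sum_congr rfl
          intro y _
          rw [Finset.mul_sum]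
      _ = ∑ x, (ξ c' * η (x - a) *
          (w x * u (x + c') * w (x + c' - a) * u (x + c - a))) * (Fintype.card A : ℂ) := by
          apply Finset.sum_congr rfl
          intro x _
          rw [Finset.sum_eq_single (x + c' - a)]
          · rw [AddChar.sum_apply_eq_ite, if_pos (by abel)]
            have e1 : x + c' - a - c' = x - a := by abel
            have e2 : x + c' - a + (c - c') = x + c - a := by abel
            rw [e1, e2]
          · intro y _ hy
            rw [AddChar.sum_apply_eq_ite, if_neg, mul_zero]
            intro h
            apply hy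
            have h2 : x + c' - a = y + (x - y + c' - a) := by abel
            rw [h2, h, add_zero]
          · intro h; exact absurd (mem_univ _) h
      _ = _ := by
          rw [Finset.mul_sum]
          apply Finset.sum_congr rfl
          intro x _
          ring
  simp only [h3]
  rw [← Finset.mul_sum]
  congr 1
  have hR : ∑ c' : A, ∑ x, ξ c' * η (x - a) *
        (w x * u (x + c') * w (x + c' - a) * u (x + c - a))
      = ∑ x, ∑ y, (ξ - η) a * ((w y * u (y + a) * ξ y) * (w x * u (x + (c - a)) * (η - ξ) x)) := by
    rw [Finset.sum_comm]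
    apply Finset.sum_congr rfl
    intro x _
    rw [← Equiv.sum_comp (Equiv.addRight (a - x))]
    apply Finset.sum_congr rfl
    intro y _
    simp only [Equiv.coe_addRight]
    have e0 : x + (y + (a - x)) = y + a := by abel
    have e0' : y + a - a = y := by abel
    have e0'' : x + (c - a) = x + c - a := by abel
    have e1 : ξ (y + (a - x)) = ξ y * ξ a * ξ (-x) := by
      rw [← AddChar.map_add_eq_mul, ← AddChar.map_add_eq_mul]
      congr 1; abel
    have e2 : η (x - a) = η x * η (-a) := by
      rw [← AddChar.map_add_eq_mul]; congr 1; abel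
    rw [e0, e1, e0'', e0', e2, AddChar.sub_apply, AddChar.sub_apply]
    ring
  rw [hR]
  simp only [FF, ov, Prod.mk_sub_mk]
  rw [mul_assoc ((ξ - η) a), Finset.sum_mul_sum, Finset.mul_sum, Finset.sum_comm]
  apply Finset.sum_congr rfl
  intro y _
  rw [Finset.mul_sum]

end Pool.Agent.H138.SIC
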