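import Pool.Agent.H138.SIC.Dual
import Pool.Graph.R_pool_sql_team_seeded_620a6dc7.H207.WH.Cong

/-!
# Line sums of the twisted products modulo a place over `p`
-/

set_option autoImplicit false

namespace Pool.Agent.H138.SIC

open Finset Pool.Agent.H207.WH

variable {A : Type*} [AddCommGroup A] [Fintype A]

section places

variable (B : ValuationSubring ℂ)

theorem val_of_pow {z : ℂ} {n : ℕ} (hn : n ≠ 0) (h : z ^ n = 1) : B.valuation z = 1 := by
  have h1 : B.valuation z ^ n = 1 := by rw [← map_pow, h, map_one]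
  rcases lt_trichotomy (B.valuation z) 1 with h2 | h2 | h2
  · exact absurd h1 (pow_lt_one₀ zero_le h2 hn).ne
  · exact h2
  · exact absurd h1 (one_lt_pow₀ h2 hn).ne'

theorem mem_of_pow {z : ℂ} {n : ℕ} (hn : n ≠ 0) (h : z ^ n = 1) : z ∈ B :=
  mem_of_val B (val_of_pow B hn h)

theorem ch_pow (χ : AddChar A ℂ) (a : A) : χ a ^ (Fintype.card A) = 1 := by
  rw [← AddChar.map_nsmul_eq_pow, card_nsmul_eq_zero, AddChar.map_zero_eq_one]

theorem ch_val (χ : AddChar A ℂ) (a : A) : B.valuation (χ a) = 1 :=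
  val_of_pow B Fintype.card_ne_zero (ch_pow χ a)

theorem ch_mem (χ : AddChar A ℂ) (a : A) : χ a ∈ B := mem_of_val B (ch_val B χ a)

theorem FF_mem {F : A × AddChar A ℂ → ℂ} (hF : ∀ g, F g ∈ B) (c g : A × AddChar A ℂ) :
    FF F c g ∈ B :=
  B.mul_mem _ _ (B.mul_mem _ _ (ch_mem B _ _) (hF _)) (hF _)

end places

section lines

variable {p : ℕ} [Fact p.Prime]

/-- the character of `F_p` attached to a direction and an element of the group -/
noncomputable def EE (k1 : ZMod p →+ A) (k2 : ZMod p →+ AddChar A ℂ) (v w : ZMod p)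
    (h : A × AddChar A ℂ) : AddChar (ZMod p) ℂ where
  toFun t := (k2 (t * w)) h.1 * h.2 (-(k1 (t * v)))
  map_zero_eq_one' := by simp
  map_add_eq_mul' s t := by
    rw [add_mul, add_mul, map_add, map_add, AddChar.add_apply, neg_add, AddChar.map_add_eq_mul]
    ring

theorem EE_apply (k1 : ZMod p →+ A) (k2 : ZMod p →+ AddChar A ℂ) (v w : ZMod p)
    (h : A × AddChar A ℂ) (t : ZMod p) :
    EE k1 k2 v w h t = (k2 (t * w)) h.1 * h.2 (-(k1 (t * v))) := rfl

open Classical in
theorem line_sum {F : A × AddChar A ℂ → ℂ} (hF : SD F) {m : ℕ} (hm : Fintype.card A = p * m)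
    (k1 : ZMod p →+ A) (k2 : ZMod p →+ AddChar A ℂ) (c g0 : A × AddChar A ℂ)
    (x0 y0 v w : ZMod p) :
    (m : ℂ) * ∑ t, FF F c (g0 + (k1 (x0 + t * v), k2 (y0 + t * w)))
      = ∑ h, (g0.2 h.1 * h.2 (-g0.1)) * (EE k1 k2 x0 y0 h 1) *
        (if EE k1 k2 v w h = 0 then 1 else 0) * FF F c h := by
  have hp : p.Prime := Fact.out
  have hp0 : (p : ℂ) ≠ 0 := by exact_mod_cast hp.ne_zero
  apply mul_left_cancel₀ hp0
  rw [← mul_assoc, ← Nat.cast_mul, ← hm, Finset.mul_sum]
  calc ∑ t, (Fintype.card A : ℂ) * FF F c (g0 + (k1 (x0 + t * v), k2 (y0 + t * w)))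
      = ∑ t, ∑ h, ((g0.2 h.1 * h.2 (-g0.1)) * (EE k1 k2 x0 y0 h 1) * FF F c h) *
          EE k1 k2 v w h t := by
        apply Finset.sum_congr rfl
        intro t _
        rw [hF]
        apply Finset.sum_congr rfl
        intro h _
        rw [EE_apply, EE_apply]
        have e1 : (g0 + (k1 (x0 + t * v), k2 (y0 + t * w))).2 h.1
            = g0.2 h.1 * (k2 y0 h.1) * (k2 (t * w) h.1) := by
          rw [Prod.snd_add, AddChar.add_apply]
          simp only [map_add, AddChar.add_apply]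
          ring
        have e2 : h.2 (-(g0 + (k1 (x0 + t * v), k2 (y0 + t * w))).1)
            = h.2 (-g0.1) * h.2 (-(k1 x0)) * h.2 (-(k1 (t * v))) := by
          rw [Prod.fst_add]
          simp only [map_add]
          rw [← AddChar.map_add_eq_mul, ← AddChar.map_add_eq_mul]
          congr 1
          abel
        rw [e1, e2]
        simp only [one_mul]
        ring
    _ = ∑ h, ((g0.2 h.1 * h.2 (-g0.1)) * (EE k1 k2 x0 y0 h 1) * FF F c h) *
          ∑ t, EE k1 k2 v w h t := by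
        rw [Finset.sum_comm]
        apply Finset.sum_congr rfl
        intro h _
        rw [Finset.mul_sum]
    _ = _ := by
        rw [Finset.mul_sum]
        apply Finset.sum_congr rfl
        intro h _
        rw [AddChar.sum_eq_ite, ZMod.card]
        split_ifs <;> ring

theorem EE_rs (B : ValuationSubring ℂ) (hB : (p : ℂ) ∈ B.nonunits)
    (k1 : ZMod p →+ A) (k2 : ZMod p →+ AddChar A ℂ) (v w : ZMod p)
    (h : A × AddChar A ℂ) (t : ZMod p) : rs B (EE k1 k2 v w h t) = 1 :=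
  rs_root B hB (chi_pow _ _)

/-- the twisted products, modulo a place over `p`, have equal sums over parallel lines of the
Sylow `p`-subgroup -/
theorem lin_of {F : A × AddChar A ℂ → ℂ} (hF : SD F) {m : ℕ} (hm : Fintype.card A = p * m)
    (hpm : ¬ p ∣ m) (B : ValuationSubring ℂ) (hB : (p : ℂ) ∈ B.nonunits)
    (hFB : ∀ g, F g ∈ B) (k1 : ZMod p →+ A) (k2 : ZMod p →+ AddChar A ℂ)
    (c g0 : A × AddChar A ℂ) :
    Lin (fun x y => rs B (FF F c (g0 + (k1 x, k2 y)))) := by
  classical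
  have hch := char_res B hB
  have hm0 : (m : IsLocalRing.ResidueField B) ≠ 0 := by
    rw [Ne, CharP.cast_eq_zero_iff _ p]
    exact hpm
  have key : ∀ x0 y0 v w : ZMod p, (m : IsLocalRing.ResidueField B) *
      ∑ t, rs B (FF F c (g0 + (k1 (x0 + t * v), k2 (y0 + t * w))))
      = ∑ h, rs B (g0.2 h.1 * h.2 (-g0.1)) *
        (if EE k1 k2 v w h = 0 then 1 else 0) * rs B (FF F c h) := by
    intro x0 y0 v w
    have h1 := congrArg (rs B) (line_sum hF hm k1 k2 c g0 x0 y0 v w)
    rw [rs_mul B (nat_mem B m) (sum_mem (fun t _ => FF_mem B hFB _ _)), rs_nat,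
      rs_sum B _ _ (fun t _ => FF_mem B hFB _ _)] at h1
    rw [h1]
    have hmemE : ∀ h, EE k1 k2 x0 y0 h 1 ∈ B := fun h => chi_mem B _ _
    have hmem1 : ∀ h : A × AddChar A ℂ, g0.2 h.1 * h.2 (-g0.1) ∈ B :=
      fun h => B.mul_mem _ _ (ch_mem B _ _) (ch_mem B _ _)
    have hite : ∀ h, (if EE k1 k2 v w h = 0 then (1 : ℂ) else 0) ∈ B := by
      intro h
      split_ifs
      · exact B.one_mem
      · exact B.zero_mem
    rw [rs_sum B _ _ (fun h _ => B.mul_mem _ _ (B.mul_mem _ _ (B.mul_mem _ _ (hmem1 h) (hmemE h))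
      (hite h)) (FF_mem B hFB _ _))]
    apply Finset.sum_congr rfl
    intro h _
    rw [rs_mul B (B.mul_mem _ _ (B.mul_mem _ _ (hmem1 h) (hmemE h)) (hite h)) (FF_mem B hFB _ _),
      rs_mul B (B.mul_mem _ _ (hmem1 h) (hmemE h)) (hite h), rs_mul B (hmem1 h) (hmemE h),
      EE_rs B hB, mul_one]
    congr 2
    split_ifs
    · exact rs_one B
    · exact rs_zero B
  intro x0 y0 v w
  apply mul_left_cancel₀ hm0
  have h1 := key x0 y0 v w
  have h2 := key 0 0 v w
  simp only [zero_add] at h2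
  rw [h1, h2]

end lines

end Pool.Agent.H138.SIC
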