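import Pool.Agent.H138.SIC.Place

/-!
# Phases which are not roots of unity
-/

set_option autoImplicit false

namespace Pool.Agent.H138.SIC

open Finset Pool.Agent.H207.WH

variable {A : Type*} [AddCommGroup A] [Fintype A]

/-- the equations of a Weyl-Heisenberg covariant maximal equiangular tight frame for an overlap
function -/
structure Fid (f : A × AddChar A ℂ → ℂ) : Prop where
  sd : SD f
  zero : f 0 = 1
  flat : ∀ g, g ≠ 0 → f g * f (-g) = g.2 (-g.1) * ((Fintype.card A : ℂ) + 1)⁻¹

/-- roots of unity -/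
def IsRoot (z : ℂ) : Prop := ∃ n : ℕ, n ≠ 0 ∧ z ^ n = 1

/-- the square root of `|A| + 1` -/
noncomputable def sq (A : Type*) [Fintype A] : ℂ := ((√((Fintype.card A : ℝ) + 1) : ℝ) : ℂ)

omit [AddCommGroup A] in
theorem sq_sq : sq A * sq A = (Fintype.card A : ℂ) + 1 := by
  rw [sq, ← Complex.ofReal_mul, Real.mul_self_sqrt (by positivity)]
  push_cast
  rfl

theorem exists_hom {G : Type*} [AddCommGroup G] [Fintype G] (p : ℕ) [Fact p.Prime]
    (h : p ∣ Fintype.card G) : ∃ k : ZMod p →+ G, Function.Injective k := by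
  obtain ⟨x, hx⟩ := exists_prime_addOrderOf_dvd_card p h
  have h1 : (zmultiplesHom G x) (p : ℤ) = 0 := by
    simp only [zmultiplesHom_apply, natCast_zsmul]
    rw [← hx, addOrderOf_nsmul_eq_zero]
  refine ⟨ZMod.lift p ⟨zmultiplesHom G x, h1⟩, ?_⟩
  rw [ZMod.lift_injective]
  intro m hm
  simp only [zmultiplesHom_apply] at hm
  rw [ZMod.intCast_zmod_eq_zero_iff_dvd, ← hx]
  exact addOrderOf_dvd_iff_zsmul_eq_zero.mpr hm

section main

variable {p : ℕ} [Fact p.Prime] {m : ℕ} (hm : Fintype.card A = p * m)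
  {f : A × AddChar A ℂ → ℂ} (hf : Fid f)

include hm in
omit [AddCommGroup A] [Fact p.Prime] in
theorem val_card {B : ValuationSubring ℂ} (hB : (p : ℂ) ∈ B.nonunits) :
    B.valuation ((Fintype.card A : ℂ) + 1) = 1 := by
  rw [add_comm]
  apply B.valuation.map_one_add_of_lt
  rw [hm, Nat.cast_mul, map_mul]
  have h1 := B.mem_nonunits_iff.mp hB
  have h2 := (B.valuation_le_one_iff _).mpr (nat_mem B m)
  calc B.valuation (p : ℂ) * B.valuation (m : ℂ) ≤ B.valuation (p : ℂ) * 1 := by gcongr
    _ < 1 := by rwa [mul_one]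

include hm in
omit [AddCommGroup A] in
theorem rs_card {B : ValuationSubring ℂ} (hB : (p : ℂ) ∈ B.nonunits) :
    rs B (((Fintype.card A : ℂ) + 1)⁻¹) = 1 := by
  have hch := char_res B hB
  rw [rs_inv B (val_card hm hB), rs_add B (nat_mem B _) B.one_mem, rs_one, rs_nat, hm,
    Nat.cast_mul, CharP.cast_eq_zero, zero_mul, zero_add, inv_one]

include hm in
omit [AddCommGroup A] [Fact p.Prime] in
theorem val_sq {B : ValuationSubring ℂ} (hB : (p : ℂ) ∈ B.nonunits) :
    B.valuation (sq A) = 1 := by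
  have h1 : B.valuation (sq A) ^ 2 = 1 := by
    rw [_root_.sq, ← map_mul, sq_sq, val_card hm hB]
  rcases lt_trichotomy (B.valuation (sq A)) 1 with h2 | h2 | h2
  · exact absurd h1 (pow_lt_one₀ zero_le h2 two_ne_zero).ne
  · exact h2
  · exact absurd h1 (one_lt_pow₀ h2 two_ne_zero).ne'

open Classical in
/-- the elements whose phase is no root of unity -/
noncomputable def bad (f : A × AddChar A ℂ → ℂ) : Finset (A × AddChar A ℂ) :=
  univ.filter (fun g => g ≠ 0 ∧ ¬ IsRoot (sq A * f g))

include hm hf in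
/-- if few phases are not roots of unity then all overlaps are integral at the places over `p` -/
theorem integral_of (hpm : ¬ p ∣ m) (hbad : (bad f).card < p) {B : ValuationSubring ℂ}
    (hB : (p : ℂ) ∈ B.nonunits) (g : A × AddChar A ℂ) : f g ∈ B := by
  classical
  have hp : p.Prime := Fact.out
  obtain ⟨g0, _, hg0⟩ := Finset.exists_max_image (univ : Finset (A × AddChar A ℂ))
    (fun g => B.valuation (f g)) ⟨0, mem_univ _⟩
  by_contra hcon
  have h1 : 1 < B.valuation (f g0) := by
    rw [← B.valuation_le_one_iff, not_le] at hcon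
    exact hcon.trans_le (hg0 g (mem_univ _))
  have hfg0 : f g0 ≠ 0 := by
    intro h0
    rw [h0, map_zero] at h1
    exact absurd h1 (not_lt.mpr zero_le)
  set F : A × AddChar A ℂ → ℂ := fun g => f g * (f g0)⁻¹ with hF
  have hFB : ∀ g, F g ∈ B := by
    intro g
    rw [← B.valuation_le_one_iff, hF]
    simp only
    rw [map_mul, map_inv₀, ← div_eq_mul_inv]
    exact div_le_one_of_le₀ (hg0 g (mem_univ _)) zero_le
  have hFg0 : F g0 = 1 := mul_inv_cancel₀ hfg0
  have hcA : p ∣ Fintype.card A := ⟨m, hm⟩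
  obtain ⟨k1, hk1⟩ := exists_hom (G := A) p hcA
  obtain ⟨k2, hk2⟩ := exists_hom (G := AddChar A ℂ) p (by rw [AddChar.card_eq]; exact hcA)
  have hlin := lin_of (sd_smul hf.sd (f g0)⁻¹) hm hpm B hB hFB k1 k2 (g0 + g0) g0
  have h00 : rs B (FF F (g0 + g0) (g0 + (k1 0, k2 0))) ≠ 0 := by
    rw [map_zero, map_zero]
    have e1 : g0 + ((0 : A), (0 : AddChar A ℂ)) = g0 := add_zero g0
    rw [e1, FF, add_sub_cancel_right, hFg0, mul_one, mul_one, rs_ne_zero_val B (ch_mem B _ _)]
    exact ch_val B _ _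
  have hsupp := supp_ge _ hlin h00
  apply absurd hbad
  rw [not_lt]
  refine hsupp.trans (Finset.card_le_card_of_injOn (fun z => g0 + (k1 z.1, k2 z.2)) ?_ ?_)
  · intro z hz
    have hz' : rs B (FF F (g0 + g0) (g0 + (k1 z.1, k2 z.2))) ≠ 0 := by
      simpa using hz
    have h2 : rs B (F (g0 + (k1 z.1, k2 z.2))) ≠ 0 := by
      intro h3
      apply hz'
      rw [FF, rs_mul B (B.mul_mem _ _ (ch_mem B _ _) (hFB _)) (hFB _),
        rs_mul B (ch_mem B _ _) (hFB _), h3, mul_zero, zero_mul]
    have h4 := (rs_ne_zero_val B (hFB _)).mp h2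
    have h5 : B.valuation (f (g0 + (k1 z.1, k2 z.2))) = B.valuation (f g0) := by
      rw [hF] at h4
      simp only at h4
      rw [map_mul, map_inv₀] at h4
      exact (mul_inv_eq_one₀ ((map_ne_zero _).mpr hfg0)).mp h4
    rw [mem_coe, bad, mem_filter]
    refine ⟨mem_univ _, ?_⟩
    constructor
    · intro h6
      replace h6 : g0 + (k1 z.1, k2 z.2) = 0 := h6
      rw [h6, hf.zero, map_one] at h5
      exact h1.ne h5
    · rintro ⟨n, hn, h6⟩
      replace h6 : (sq A * f (g0 + (k1 z.1, k2 z.2))) ^ n = 1 := h6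
      have h7 := val_of_pow B hn h6
      rw [map_mul, val_sq hm hB, one_mul, h5] at h7
      exact h1.ne' h7
  · intro z _ z' _ hzz
    have h2 := add_left_cancel hzz
    simp only [Prod.mk.injEq] at h2
    exact Prod.ext (hk1 h2.1) (hk2 h2.2)

include hm hf in
/-- the period of the overlaps over the Sylow subgroup -/
theorem period (hp2 : p ≠ 2) (hpm : ¬ p ∣ m) {B : ValuationSubring ℂ}
    (hB : (p : ℂ) ∈ B.nonunits) (hfB : ∀ g, f g ∈ B) (k1 : ZMod p →+ A)
    (k2 : ZMod p →+ AddChar A ℂ) (hk1 : Function.Injective k1) (hk2 : Function.Injective k2) :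
    ∃ v : ZMod p × ZMod p, v ≠ 0 ∧ ∀ g : ZMod p × ZMod p,
      rs B (f (k1 (g + v).1, k2 (g + v).2)) = rs B (f (k1 g.1, k2 g.2)) := by
  have hch := char_res B hB
  let ι : ZMod p →+* IsLocalRing.ResidueField B := ZMod.castHom (dvd_refl p) _
  have hroot : ∀ x y : ZMod p, rs B ((k2 y) (k1 x)) = 1 := by
    intro x y
    apply rs_root B hB
    rw [← AddChar.map_nsmul_eq_pow, ← map_nsmul]
    have : p • x = 0 := by simp
    rw [this, map_zero, AddChar.map_zero_eq_one]
  obtain ⟨v, w, hvw, h⟩ := cls ι hp2 (fun x y => rs B (f (k1 x, k2 y))) (by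
      intro c d
      have h1 := lin_of hf.sd hm hpm B hB hfB k1 k2 (k1 c, k2 d) 0
      have h2 : (fun x y => rs B (FF f (k1 c, k2 d) (0 + (k1 x, k2 y))))
          = (fun x y => rs B (f (k1 x, k2 y)) * rs B (f (k1 (c - x), k2 (d - y)))) := by
        funext x y
        rw [zero_add, FF, rs_mul B (B.mul_mem _ _ (ch_mem B _ _) (hfB _)) (hfB _),
          rs_mul B (ch_mem B _ _) (hfB _)]
        have h3 : (((k1 x, k2 y) : A × AddChar A ℂ).2 - ((k1 c, k2 d) : A × AddChar A ℂ).2)
            ((k1 x, k2 y) : A × AddChar A ℂ).1 = (k2 (y - d)) (k1 x) := by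
          rw [map_sub]
        rw [h3, hroot, one_mul, map_sub, map_sub]
        rfl
      rw [h2] at h1
      exact h1) 1 (by
      intro x y
      by_cases hxy : x = 0 ∧ y = 0
      · rw [hxy.1, hxy.2, neg_zero, map_zero, map_zero]
        have : f ((0 : A), (0 : AddChar A ℂ)) = 1 := hf.zero
        rw [this, rs_one, one_mul]
      · have hne : ((k1 x, k2 y) : A × AddChar A ℂ) ≠ 0 := by
          intro h0
          apply hxy
          have h1 : k1 x = 0 := congrArg Prod.fst h0
          have h2 : k2 y = 0 := congrArg Prod.snd h0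
          exact ⟨hk1 (by rw [h1, map_zero]), hk2 (by rw [h2, map_zero])⟩
        have h1 := hf.flat _ hne
        have h2 : -((k1 x, k2 y) : A × AddChar A ℂ) = (k1 (-x), k2 (-y)) := by
          rw [map_neg, map_neg]; rfl
        rw [h2] at h1
        rw [← rs_mul B (hfB _) (hfB _), h1]
        have h3 : ((k1 x, k2 y) : A × AddChar A ℂ).2 (-((k1 x, k2 y) : A × AddChar A ℂ).1)
            = (k2 y) (k1 (-x)) := by
          show (k2 y) (-(k1 x)) = (k2 y) (k1 (-x))
          rw [map_neg k1]
        rw [h3, rs_mul B (ch_mem B _ _) (inv_mem_of_val B (val_card hm hB)), hroot, one_mul,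
          rs_card hm hB])
  refine ⟨(v, w), ?_, fun g => h g.1 g.2⟩
  intro h0
  have h1 : v = 0 := congrArg Prod.fst h0
  have h2 : w = 0 := congrArg Prod.snd h0
  rcases hvw with h3 | h3
  · exact h3 h1
  · exact h3 h2

include hm hf in
/-- **Phases which are not roots of unity.** -/
theorem bad_card (hp2 : p ≠ 2) (hpm : ¬ p ∣ m) (hsq : ¬ IsSquare (Fintype.card A + 1)) :
    p - 1 ≤ (bad f).card := by
  classical
  have hp : p.Prime := Fact.out
  by_contra hcon
  push Not at hcon
  have hlt : (bad f).card < p := by omega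
  have hcA : p ∣ Fintype.card A := ⟨m, hm⟩
  obtain ⟨k1, hk1⟩ := exists_hom (G := A) p hcA
  obtain ⟨k2, hk2⟩ := exists_hom (G := AddChar A ℂ) p (by rw [AddChar.card_eq]; exact hcA)
  have hD : ((Fintype.card A + 1 : ℕ) : ZMod p) = 1 := by
    rw [hm]
    push_cast
    rw [CharP.cast_eq_zero, zero_mul, zero_add]
  obtain ⟨B, hB, hBs⟩ := exists_place p (Fintype.card A + 1) hD hsq 1 (by norm_num)
  obtain ⟨B', hB', hBs'⟩ := exists_place p (Fintype.card A + 1) hD hsq (-1) (by norm_num)
  have hsqA : ((√((Fintype.card A + 1 : ℕ) : ℝ) : ℝ) : ℂ) = sq A := by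
    rw [sq]
    push_cast
    rfl
  rw [hsqA] at hBs hBs'
  have hch := char_res B hB
  have hch' := char_res B' hB'
  have h2' : (2 : IsLocalRing.ResidueField B') ≠ 0 := by
    intro h
    have h1 : ((2 : ℕ) : IsLocalRing.ResidueField B') = 0 := by exact_mod_cast h
    rw [CharP.cast_eq_zero_iff _ p] at h1
    exact hp2 ((Nat.prime_dvd_prime_iff_eq hp Nat.prime_two).mp h1)
  have h2 : (2 : IsLocalRing.ResidueField B) ≠ 0 := by
    intro h
    have h1 : ((2 : ℕ) : IsLocalRing.ResidueField B) = 0 := by exact_mod_cast h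
    rw [CharP.cast_eq_zero_iff _ p] at h1
    exact hp2 ((Nat.prime_dvd_prime_iff_eq hp Nat.prime_two).mp h1)
  have hs : sq A ∈ B := mem_of_val B (val_sq hm hB)
  have hs' : sq A ∈ B' := mem_of_val B' (val_sq hm hB')
  have hrs : rs B (sq A) = 1 := by
    rw [Int.cast_one, ← rs_eq_zero B (sub_mem hs B.one_mem), rs_sub B hs B.one_mem, rs_one,
      sub_eq_zero] at hBs
    exact hBs
  have hrs' : rs B' (sq A) = -1 := by
    have h3 : sq A - ((-1 : ℤ) : ℂ) = sq A + 1 := by push_cast; ring
    rw [h3, ← rs_eq_zero B' (add_mem hs' B'.one_mem), rs_add B' hs' B'.one_mem, rs_one] at hBs'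
    exact eq_neg_of_add_eq_zero_left hBs'
  have hfB := fun g => integral_of hm hf hpm hlt hB g
  have hfB' := fun g => integral_of hm hf hpm hlt hB' g
  obtain ⟨v, hv, hper⟩ := period hm hf hp2 hpm hB hfB k1 k2 hk1 hk2
  obtain ⟨v', hv', hper'⟩ := period hm hf hp2 hpm hB' hfB' k1 k2 hk1 hk2
  -- the elements of the Sylow subgroup
  set κ : ZMod p × ZMod p → A × AddChar A ℂ := fun g => (k1 g.1, k2 g.2) with hκ
  have hκi : Function.Injective κ := by
    intro g g' h
    have h3 : k1 g.1 = k1 g'.1 := congrArg Prod.fst h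
    have h4 : k2 g.2 = k2 g'.2 := congrArg Prod.snd h
    exact Prod.ext (hk1 h3) (hk2 h4)
  have hκ0 : κ 0 = 0 := by
    rw [hκ]
    simp only [Prod.fst_zero, Prod.snd_zero, map_zero]
    rfl
  have hper1 : ∀ (j : ZMod p) (g : ZMod p × ZMod p), rs B (f (κ (g + j • v))) = rs B (f (κ g)) :=
    fun j g => inv_mul (fun g => rs B (f (κ g))) v hper j g
  have hper2 : ∀ (j : ZMod p) (g : ZMod p × ZMod p),
      rs B' (f (κ (g + j • v'))) = rs B' (f (κ g)) :=
    fun j g => inv_mul (fun g => rs B' (f (κ g))) v' hper' j g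
  have hone : ∀ j : ZMod p, rs B (f (κ (j • v))) = 1 := by
    intro j
    have h3 := hper1 j 0
    rwa [zero_add, hκ0, hf.zero, rs_one] at h3
  have hone' : ∀ j : ZMod p, rs B' (f (κ (j • v'))) = 1 := by
    intro j
    have h3 := hper2 j 0
    rwa [zero_add, hκ0, hf.zero, rs_one] at h3
  -- phases
  have hph : ∀ g, rs B (sq A * f g) = rs B (f g) := by
    intro g
    rw [rs_mul B hs (hfB g), hrs, one_mul]
  have hph' : ∀ g, rs B' (sq A * f g) = -rs B' (f g) := by
    intro g
    rw [rs_mul B' hs' (hfB' g), hrs', neg_one_mul]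
  have hgood : ∀ g : ZMod p × ZMod p, g ≠ 0 → κ g ∉ bad f → IsRoot (sq A * f (κ g)) := by
    intro g hg hgb
    rw [bad, mem_filter] at hgb
    push Not at hgb
    exact hgb (mem_univ _) (fun h => hg (hκi (by rw [h, hκ0])))
  have hone_root : (1 : ℂ) ^ 1 = 1 := one_pow 1
  have hmone_root : (-1 : ℂ) ^ 2 = 1 := by norm_num
  have hm1B : (-1 : ℂ) ∈ B := neg_mem B.one_mem
  have hm1B' : (-1 : ℂ) ∈ B' := neg_mem B'.one_mem
  have hrsm1 : rs B (-1 : ℂ) = -1 := by
    have h3 := rs_sub B B.zero_mem B.one_mem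
    rwa [zero_sub, rs_zero, rs_one, zero_sub] at h3
  have hrsm1' : rs B' (-1 : ℂ) = -1 := by
    have h3 := rs_sub B' B'.zero_mem B'.one_mem
    rwa [zero_sub, rs_zero, rs_one, zero_sub] at h3
  obtain ⟨v1, w1⟩ := v
  obtain ⟨v2, w2⟩ := v'
  by_cases hdet : v1 * w2 - w1 * v2 = 0
  · -- the periods are proportional
    obtain ⟨c, hc⟩ : ∃ c : ZMod p, ((v1, w1) : ZMod p × ZMod p) = c • (v2, w2) := by
      by_cases h3 : v2 = 0
      · have h4 : w2 ≠ 0 := by
          intro h4
          exact hv' (Prod.ext h3 h4)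
        refine ⟨w1 / w2, Prod.ext ?_ ?_⟩
        · show v1 = w1 / w2 * v2
          rw [h3, mul_zero] at hdet
          rw [h3, mul_zero]
          rw [sub_zero] at hdet
          exact (mul_eq_zero.mp hdet).resolve_right h4
        · show w1 = w1 / w2 * w2
          field_simp
      · refine ⟨v1 / v2, Prod.ext ?_ ?_⟩
        · show v1 = v1 / v2 * v2
          field_simp
        · show w1 = v1 / v2 * w2
          field_simp
          linear_combination -hdet
    obtain ⟨i, hi0, hib⟩ : ∃ i : ZMod p, i ≠ 0 ∧ κ (i • ((v1, w1) : ZMod p × ZMod p)) ∉ bad f := by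
      by_contra hall
      push Not at hall
      have h3 := Finset.card_le_card_of_injOn (s := (univ : Finset (ZMod p)).erase 0)
        (t := bad f) (fun i => κ (i • ((v1, w1) : ZMod p × ZMod p))) (fun i hi => by
          rw [mem_coe, Finset.mem_erase] at hi
          exact hall i hi.1) (by
          intro i _ j _ hij
          have h4 := hκi hij
          exact smul_left_injective _ hv h4)
      rw [Finset.card_erase_of_mem (mem_univ _), Finset.card_univ, ZMod.card] at h3
      omega
    obtain ⟨n, hn, hz⟩ := hgood _ (smul_ne_zero hi0 hv) hib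
    have h3 : rs B (sq A * f (κ (i • ((v1, w1) : ZMod p × ZMod p)))) = rs B 1 := by
      rw [hph, hone, rs_one]
    have h4 := root_congr hB hB' hn one_ne_zero hz hone_root h3
    rw [hph', rs_one, hc, smul_smul, hone'] at h4
    apply h2'
    linear_combination -h4
  · -- the periods are independent
    have hT1 : ∀ i : ZMod p, i ≠ 0 → i • ((v1, w1) : ZMod p × ZMod p) ≠ 0 :=
      fun i hi => smul_ne_zero hi hv
    have hT2 : ∀ i : ZMod p, i ≠ 0 → i • ((v2, w2) : ZMod p × ZMod p) ≠ 0 :=
      fun i hi => smul_ne_zero hi hv'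
    let h : ZMod p × ZMod p → ZMod p := fun z =>
      if z.1 * w2 - z.2 * v2 = 0 then (v1 * z.2 - w1 * z.1) / (v1 * w2 - w1 * v2)
      else (z.1 * w2 - z.2 * v2) / (v1 * w2 - w1 * v2)
    have hh1 : ∀ i : ZMod p, i ≠ 0 → h (i • ((v1, w1) : ZMod p × ZMod p)) = i := by
      intro i hi
      have e1 : (i • ((v1, w1) : ZMod p × ZMod p)).1 * w2 - (i • ((v1, w1) : ZMod p × ZMod p)).2 * v2
          = i * (v1 * w2 - w1 * v2) := by
        simp only [Prod.smul_mk, smul_eq_mul]; ring
      show (if _ then _ else _) = i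
      rw [if_neg (by rw [e1]; exact mul_ne_zero hi hdet), e1]
      field_simp
    have hh2 : ∀ i : ZMod p, i ≠ 0 → h (i • ((v2, w2) : ZMod p × ZMod p)) = i := by
      intro i hi
      have e1 : (i • ((v2, w2) : ZMod p × ZMod p)).1 * w2 - (i • ((v2, w2) : ZMod p × ZMod p)).2 * v2
          = 0 := by
        simp only [Prod.smul_mk, smul_eq_mul]; ring
      have e2 : v1 * (i • ((v2, w2) : ZMod p × ZMod p)).2 - w1 * (i • ((v2, w2) : ZMod p × ZMod p)).1
          = i * (v1 * w2 - w1 * v2) := by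
        simp only [Prod.smul_mk, smul_eq_mul]; ring
      show (if _ then _ else _) = i
      rw [if_pos e1, e2]
      field_simp
    have hh3 : ∀ i : ZMod p, i ≠ 0 → h (i • ((v1, w1) : ZMod p × ZMod p) + i • (v2, w2)) = i := by
      intro i hi
      have e1 : (i • ((v1, w1) : ZMod p × ZMod p) + i • (v2, w2)).1 * w2
          - (i • ((v1, w1) : ZMod p × ZMod p) + i • (v2, w2)).2 * v2
          = i * (v1 * w2 - w1 * v2) := by
        simp only [Prod.smul_mk, smul_eq_mul, Prod.mk_add_mk]; ring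
      show (if _ then _ else _) = i
      rw [if_neg (by rw [e1]; exact mul_ne_zero hi hdet), e1]
      field_simp
    obtain ⟨i, hi0, hb1, hb2, hb3⟩ : ∃ i : ZMod p, i ≠ 0 ∧
        κ (i • ((v1, w1) : ZMod p × ZMod p)) ∉ bad f ∧
        κ (i • ((v2, w2) : ZMod p × ZMod p)) ∉ bad f ∧
        κ (i • ((v1, w1) : ZMod p × ZMod p) + i • (v2, w2)) ∉ bad f := by
      by_contra hall
      push Not at hall
      have hex : ∀ i : ZMod p, i ≠ 0 → ∃ z, κ z ∈ bad f ∧ h z = i := by
        intro i hi
        by_cases hb1 : κ (i • ((v1, w1) : ZMod p × ZMod p)) ∈ bad f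
        · exact ⟨_, hb1, hh1 i hi⟩
        by_cases hb2 : κ (i • ((v2, w2) : ZMod p × ZMod p)) ∈ bad f
        · exact ⟨_, hb2, hh2 i hi⟩
        exact ⟨_, hall i hi hb1 hb2, hh3 i hi⟩
      choose! z hz1 hz2 using hex
      have h3 := Finset.card_le_card_of_injOn (s := (univ : Finset (ZMod p)).erase 0)
        (t := bad f) (fun i => κ (z i)) (fun i hi => by
          rw [mem_coe, Finset.mem_erase] at hi
          exact hz1 i hi.1) (by
          intro i hi j hj hij
          rw [mem_coe, Finset.mem_erase] at hi hj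
          have h4 := hκi hij
          rw [← hz2 i hi.1, ← hz2 j hj.1, h4])
      rw [Finset.card_erase_of_mem (mem_univ _), Finset.card_univ, ZMod.card] at h3
      omega
    have h3ne : i • ((v1, w1) : ZMod p × ZMod p) + i • (v2, w2) ≠ 0 := by
      intro h0
      have h4 := hh3 i hi0
      rw [h0] at h4
      apply hi0
      rw [← h4]
      show (if _ then _ else _) = (0 : ZMod p)
      simp
    obtain ⟨n1, hn1, hz1⟩ := hgood _ (hT1 i hi0) hb1
    obtain ⟨n2, hn2, hz2⟩ := hgood _ (hT2 i hi0) hb2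
    obtain ⟨n3, hn3, hz3⟩ := hgood _ h3ne hb3
    -- first phase is congruent to one at `B`
    have a1 : rs B (sq A * f (κ (i • ((v1, w1) : ZMod p × ZMod p)))) = rs B 1 := by
      rw [hph, hone, rs_one]
    -- second phase is congruent to minus one at `B'`
    have a2 : rs B' (sq A * f (κ (i • ((v2, w2) : ZMod p × ZMod p)))) = rs B' (-1) := by
      rw [hph', hone', hrsm1']
    have a2' := root_congr hB' hB hn2 two_ne_zero hz2 hmone_root a2
    -- third and second phases
    have a3 : rs B (sq A * f (κ (i • ((v1, w1) : ZMod p × ZMod p) + i • (v2, w2))))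
        = rs B (sq A * f (κ (i • ((v2, w2) : ZMod p × ZMod p)))) := by
      rw [hph, hph, add_comm, hper1]
    -- third and first phases
    have a4 : rs B' (sq A * f (κ (i • ((v1, w1) : ZMod p × ZMod p) + i • (v2, w2))))
        = rs B' (sq A * f (κ (i • ((v1, w1) : ZMod p × ZMod p)))) := by
      rw [hph', hph', hper2]
    have a4' := root_congr hB' hB hn3 hn1 hz3 hz1 a4
    rw [a4', a1, a2', rs_one, hrsm1] at a3
    apply h2
    linear_combination a3

end main

end Pool.Agent.H138.SIC
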