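import Pool.Agent.H138.SIC.Line

/-!
# Supports, roots of unity and places
-/

set_option autoImplicit false

namespace Pool.Agent.H138.SIC

open Finset Pool.Agent.H207.WH

section supp

variable {p : ℕ} [Fact p.Prime] {K : Type*} [Field K]

open Classical in
/-- a function on the plane with equal sums over parallel lines which does not vanish at the origin
has at least `p` nonzero values -/
theorem supp_ge (c : ZMod p → ZMod p → K) (hc : Lin c) (h0 : c 0 0 ≠ 0) :
    p ≤ (univ.filter (fun z : ZMod p × ZMod p => c z.1 z.2 ≠ 0)).card := by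
  by_cases hm : ∃ m : ZMod p, ∀ x, x ≠ 0 → c x (x * m) = 0
  · obtain ⟨m, hm⟩ := hm
    have h1 : ∀ b : ZMod p, ∃ t, c t (b + t * m) ≠ 0 := by
      intro b
      by_contra hcon
      push Not at hcon
      have h2 := hc 0 b 1 m
      simp only [mul_one, zero_add] at h2
      rw [Finset.sum_eq_zero (fun t _ => hcon t), Finset.sum_eq_single 0] at h2
      · rw [zero_mul] at h2
        exact h0 h2.symm
      · intro t _ ht
        exact hm t ht
      · intro h; exact absurd (mem_univ _) h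
    choose t ht using h1
    have h3 := Finset.card_le_card_of_injOn (s := (univ : Finset (ZMod p)))
      (t := univ.filter (fun z : ZMod p × ZMod p => c z.1 z.2 ≠ 0))
      (fun b => (t b, b + t b * m)) (fun b _ => by simp [ht b]) (by
        intro b _ b' _ hbb
        simp only [Prod.mk.injEq] at hbb
        rw [hbb.1] at hbb
        exact add_right_cancel hbb.2)
    rwa [Finset.card_univ, ZMod.card] at h3
  · push Not at hm
    choose x hx hxc using hm
    have h3 := Finset.card_le_card_of_injOn (s := (univ : Finset (ZMod p)))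
      (t := univ.filter (fun z : ZMod p × ZMod p => c z.1 z.2 ≠ 0))
      (fun b => (x b, x b * b)) (fun b _ => by simp [hxc b]) (by
        intro b _ b' _ hbb
        simp only [Prod.mk.injEq] at hbb
        rw [hbb.1] at hbb
        exact mul_left_cancel₀ (hx b') hbb.2)
    rwa [Finset.card_univ, ZMod.card] at h3

end supp

section roots

variable {p : ℕ} [Fact p.Prime] (B : ValuationSubring ℂ)

/-- a root of unity is congruent to one at a place over `p` exactly if its order is a power of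
`p` -/
theorem root_iff (hB : (p : ℂ) ∈ B.nonunits) {z : ℂ} {n : ℕ} (hn : n ≠ 0) (hz : z ^ n = 1) :
    rs B z = 1 ↔ ∃ j, z ^ (p ^ j) = 1 := by
  have hp : p.Prime := Fact.out
  have hch := char_res B hB
  have hzB := mem_of_pow B hn hz
  constructor
  · intro h
    obtain ⟨j, n', hn', hnn⟩ := Nat.exists_eq_pow_mul_and_not_dvd hn p hp.ne_one
    refine ⟨j, ?_⟩
    by_contra hy
    have hy1 : (z ^ (p ^ j)) ^ n' = 1 := by rw [← pow_mul, ← hnn, hz]
    have h2 : ∑ i ∈ range n', (z ^ (p ^ j)) ^ i = 0 := by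
      have h3 := geom_sum_mul (z ^ (p ^ j)) n'
      rw [hy1, sub_self] at h3
      exact (mul_eq_zero.mp h3).resolve_right (sub_ne_zero.mpr hy)
    have h4 := congrArg (rs B) h2
    have hyB : z ^ (p ^ j) ∈ B := pow_mem hzB _
    rw [rs_sum B _ _ (fun i _ => pow_mem hyB i), rs_zero] at h4
    have h5 : ∀ i, rs B ((z ^ (p ^ j)) ^ i) = 1 := by
      intro i
      rw [rs_pow B hyB, rs_pow B hzB, h, one_pow, one_pow]
    simp only [h5] at h4
    rw [Finset.sum_const, card_range, nsmul_eq_mul, mul_one, CharP.cast_eq_zero_iff _ p] at h4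
    exact hn' h4
  · rintro ⟨j, hj⟩
    have h1 : (rs B z - 1) ^ (p ^ j) = 0 := by
      rw [sub_pow_char_pow, one_pow, ← rs_pow B hzB, hj, rs_one, sub_self]
    exact sub_eq_zero.mp (pow_eq_zero_iff (pow_ne_zero _ hp.ne_zero) |>.mp h1)

/-- congruence of two roots of unity does not depend on the place over `p` -/
theorem root_congr {B B' : ValuationSubring ℂ} (hB : (p : ℂ) ∈ B.nonunits)
    (hB' : (p : ℂ) ∈ B'.nonunits) {z z' : ℂ} {n n' : ℕ} (hn : n ≠ 0) (hn' : n' ≠ 0)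
    (hz : z ^ n = 1) (hz' : z' ^ n' = 1) (h : rs B z = rs B z') : rs B' z = rs B' z' := by
  have hz0 : z' ≠ 0 := by
    intro h0
    rw [h0, zero_pow hn'] at hz'
    exact zero_ne_one hz'
  have hq : (z * z'⁻¹) ^ (n * n') = 1 := by
    rw [mul_pow, pow_mul, hz, one_pow, inv_pow, mul_comm n n', pow_mul, hz', one_pow, inv_one,
      mul_one]
  have hnn : n * n' ≠ 0 := mul_ne_zero hn hn'
  have key : ∀ B : ValuationSubring ℂ, rs B z = rs B z' ↔ rs B (z * z'⁻¹) = 1 := by
    intro B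
    have h1 := val_of_pow B hn' hz'
    have h2 := mem_of_pow B hn hz
    have h3 : rs B z' ≠ 0 := (rs_ne_zero_val B (mem_of_val B h1)).mpr h1
    rw [rs_mul B h2 (inv_mem_of_val B h1), rs_inv B h1, mul_inv_eq_one₀ h3]
  rw [key B'] 
  rw [key B] at h
  rw [root_iff B' hB' hnn hq]
  exact (root_iff B hB hnn hq).mp h

end roots

/-- places over `p` with a given sign of the square root -/
theorem exists_place (p : ℕ) [Fact p.Prime] (D : ℕ) (hD : (D : ZMod p) = 1) (hsq : ¬ IsSquare D)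
    (c : ℤ) (hc : c * c = 1) : ∃ B : ValuationSubring ℂ, (p : ℂ) ∈ B.nonunits ∧
      ((√(D : ℝ) : ℝ) : ℂ) - (c : ℂ) ∈ B.nonunits := by
  have hp : p.Prime := Fact.out
  have hD0 : (0 : ℤ) ≤ (D : ℤ) := Int.natCast_nonneg D
  have hns : ∀ n : ℤ, (D : ℤ) ≠ n * n := by
    intro n hn
    apply hsq
    refine ⟨n.natAbs, ?_⟩
    have : (D : ℤ) = ((n.natAbs * n.natAbs : ℕ) : ℤ) := by
      rw [Nat.cast_mul, Int.natAbs_mul_self' n]
      exact hn
    exact_mod_cast this
  let φ : ℤ√(D : ℤ) →+* ℂ := Complex.ofRealHom.comp (Zsqrtd.toReal hD0)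
  have hφ : Function.Injective φ :=
    Complex.ofReal_injective.comp (Zsqrtd.toReal_injective hD0 hns)
  have hφs : φ Zsqrtd.sqrtd = ((√(D : ℝ) : ℝ) : ℂ) := by
    show ((Zsqrtd.toReal hD0 Zsqrtd.sqrtd : ℝ) : ℂ) = _
    simp
  let R : Subring ℂ := φ.range
  have h3 : (p : ℂ) ∈ R := ⟨(p : ℤ√(D : ℤ)), by simp⟩
  have h4 : ((√(D : ℝ) : ℝ) : ℂ) - (c : ℂ) ∈ R := ⟨Zsqrtd.sqrtd - (c : ℤ√(D : ℤ)), by
    rw [map_sub, hφs, map_intCast]⟩
  have hI : Ideal.span {(⟨(p : ℂ), h3⟩ : R), (⟨((√(D : ℝ) : ℝ) : ℂ) - (c : ℂ), h4⟩ : R)} ≠ ⊤ := by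
    intro htop
    have h1 : (1 : R) ∈ Ideal.span {(⟨(p : ℂ), h3⟩ : R),
        (⟨((√(D : ℝ) : ℝ) : ℂ) - (c : ℂ), h4⟩ : R)} := by rw [htop]; trivial
    rw [Ideal.mem_span_pair] at h1
    obtain ⟨⟨a, a', ha⟩, ⟨b, b', hb⟩, hab⟩ := h1
    have h2 : a * (p : ℂ) + b * (((√(D : ℝ) : ℝ) : ℂ) - (c : ℂ)) = 1 := congrArg Subtype.val hab
    have h5 : φ (a' * (p : ℤ√(D : ℤ)) + b' * (Zsqrtd.sqrtd - (c : ℤ√(D : ℤ)))) = φ 1 := by
      rw [map_add, map_mul, map_mul, map_sub, map_natCast, map_intCast, map_one, hφs, ha, hb, h2]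
    have h6 := hφ h5
    have hcc : ((c : ZMod p)) * (c : ZMod p) = ((D : ℤ) : ZMod p) := by
      rw [← Int.cast_mul, hc]
      simp [hD]
    let L : ℤ√(D : ℤ) →+* ZMod p := Zsqrtd.lift ⟨(c : ZMod p), hcc⟩
    have hL : L Zsqrtd.sqrtd = (c : ZMod p) := by
      show (Zsqrtd.lift ⟨(c : ZMod p), hcc⟩ : ℤ√(D : ℤ) →+* ZMod p) Zsqrtd.sqrtd = _
      simp
    have h7 := congrArg L h6
    rw [map_add, map_mul, map_mul, map_sub, map_natCast, map_intCast, map_one, hL, sub_self,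
      mul_zero, add_zero, ZMod.natCast_self, mul_zero] at h7
    exact zero_ne_one h7
  obtain ⟨B, _, hB⟩ := Ideal.image_subset_nonunits_valuationSubring _ hI
  refine ⟨B, hB ⟨⟨(p : ℂ), h3⟩, Ideal.subset_span (by simp), rfl⟩,
    hB ⟨⟨((√(D : ℝ) : ℝ) : ℂ) - (c : ℂ), h4⟩, Ideal.subset_span (by simp), rfl⟩⟩

end Pool.Agent.H138.SIC
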